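import Mathlib

set_option autoImplicit false

namespace Pool.Agent.Results.MP_fc1ccb_an.Period28

open Complex

/-- The sign chosen at a state. -/
def sg (u : ℚ × ℚ) : ℤ := if 0 < u.1 then -1 else 1

/-- The orbit in rotating coordinates. -/
def st : ℕ → ℚ × ℚ
  | 0 => (102815117136417208850391 / 164517971692716853781609,
      -40704668497889967157560 / 164517971692716853781609)
  | n + 1 => (((st n).1 + sg (st n)) * (-871 / 2329) + (st n).2 * (2160 / 2329),
      (st n).2 * (-871 / 2329) - ((st n).1 + sg (st n)) * (2160 / 2329))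

theorem st28 : st 28 = st 0 := by decide +kernel

theorem per (n : ℕ) : st (n + 28) = st n := by
  induction n with
  | zero => exact st28
  | succ n ih =>
    rw [show n + 1 + 28 = (n + 28) + 1 by ring, st, ih, st]

theorem per' (n k : ℕ) : st (n + 28 * k) = st n := by
  induction k with
  | zero => rfl
  | succ k ih => rw [show n + 28 * (k + 1) = (n + 28 * k) + 28 by ring, per, ih]

theorem ne0 (n : ℕ) : (st n).1 ≠ 0 := by
  have h : ∀ m < 28, (st m).1 ≠ 0 := by decide +kernel
  rw [← Nat.mod_add_div n 28, per']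
  exact h _ (Nat.mod_lt _ (by norm_num))

theorem least : ∀ p < 28, 1 ≤ p → ∃ n < 28, sg (st (n + p)) ≠ sg (st n) := by decide +kernel

theorem result :
    ∃ (α : ℝ) (z : ℕ → ℂ) (ε : ℕ → ℤ), Irrational α ∧ 0 < α ∧
      (∀ n, ε n = 1 ∨ ε n = -1) ∧
      (∀ n : ℕ, z (n + 1) = z n + ε n * exp (2 * Real.pi * I * α * n)) ∧
      (∀ n : ℕ, ‖z n + ε n * exp (2 * Real.pi * I * α * n)‖ <
        ‖z n - ε n * exp (2 * Real.pi * I * α * n)‖) ∧
      IsLeast {p : ℕ | 1 ≤ p ∧ ∃ N, ∀ n, N ≤ n → ε (n + p) = ε n} 28 := by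
  set w : ℂ := ⟨-871 / 2329, 2160 / 2329⟩ with hw
  have hn : ‖w‖ = 1 := by
    rw [Complex.norm_def, normSq_apply, hw]
    norm_num
  have hpi := Real.pi_pos
  have hw0 : w ≠ 0 := fun h => by simp [h] at hn
  have he : ∀ n : ℕ, exp (2 * Real.pi * I * ((w.arg / (2 * Real.pi) : ℝ) : ℂ) * n) = w ^ n := by
    intro n
    have h1 := norm_mul_exp_arg_mul_I w
    rw [hn, ofReal_one, one_mul] at h1
    have h2 : (Real.pi : ℂ) ≠ 0 := by exact_mod_cast hpi.ne'
    rw [show 2 * Real.pi * I * ((w.arg / (2 * Real.pi) : ℝ) : ℂ) * n = n * (w.arg * I) by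
      push_cast; field_simp, exp_nat_mul, h1]
  refine ⟨w.arg / (2 * Real.pi), fun n => (⟨(st n).1, (st n).2⟩ : ℂ) * w ^ n, fun n => sg (st n),
    ?_, ?_, ?_, ?_, ?_, ⟨by norm_num, 0, fun n _ => by simp only [per]⟩, ?_⟩
  · rintro ⟨r, hr⟩
    have hc : Real.cos w.arg = -871 / 2329 := by rw [cos_arg hw0, hn, hw]; norm_num
    have := niven (θ := w.arg) ⟨2 * r, by push_cast; rw [hr]; field_simp⟩
      ⟨-871 / 2329, by rw [hc]; norm_num⟩
    rw [hc] at this
    simp only [Set.mem_insert_iff, Set.mem_singleton_iff] at this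
    norm_num at this
  · refine div_pos ?_ (by positivity)
    have h1 : 0 ≤ w.arg := arg_nonneg_iff.2 (by rw [hw]; norm_num)
    refine h1.lt_of_ne fun h => ?_
    have := (arg_eq_zero_iff.1 h.symm).2
    rw [hw] at this
    norm_num at this
  · intro n
    simp only [sg]
    split_ifs <;> simp
  · intro n
    beta_reduce
    rw [he, ← add_mul, pow_succ', ← mul_assoc]
    congr 1
    rw [hw]
    apply Complex.ext
    · simp only [st, mul_re, add_re, intCast_re]
      push_cast
      ring
    · simp only [st, mul_im, add_im, intCast_im]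
      push_cast
      ring
  · intro n
    beta_reduce
    rw [he, ← add_mul, ← sub_mul, norm_mul, norm_mul, norm_pow, hn, one_pow, mul_one, mul_one,
      Complex.norm_def, Complex.norm_def]
    apply Real.sqrt_lt_sqrt (normSq_nonneg _)
    simp only [normSq_apply, add_re, add_im, sub_re, sub_im, intCast_re, intCast_im, sg]
    have h0 := ne0 n
    split_ifs with h
    · have : (0 : ℝ) < (st n).1 := by exact_mod_cast h
      push_cast
      nlinarith
    · have : ((st n).1 : ℝ) < 0 := by exact_mod_cast lt_of_le_of_ne (not_lt.1 h) h0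
      push_cast
      nlinarith
  · rintro p ⟨hp, N, hN⟩
    by_contra hlt
    obtain ⟨n, -, hn⟩ := least p (not_le.1 hlt) hp
    have := hN (n + 28 * N) (by omega)
    simp only at this
    rw [per', show n + 28 * N + p = (n + p) + 28 * N by ring, per'] at this
    exact hn this

end Pool.Agent.Results.MP_fc1ccb_an.Period28
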